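import Pool.Agent.Work.MP_7f4e13_co.Hedge.Top
import Pool.Agent.Work.MP_7f4e13_co.Bridge

namespace Pool.Agent.Results.MP_7f4e13_co.InducedGrid

open Pool.Agent.Work.MP_7f4e13_co

theorem result : ∃ f : ℕ → ℕ → ℕ → ℕ, ∀ j k d : ℕ, 0 < j → 0 < k → 0 < d →
    ∀ (V : Type) [Finite V] (G : SimpleGraph V),
      IsEmpty (completeBipartiteGraph (Fin 1) (Fin d) ↪g G) → f j k d ≤ treeAlpha G →
      IsIndMinor (SimpleGraph.pathGraph j □ SimpleGraph.pathGraph k) G := by
  choose f hf using Hedge.main_grid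
  exact ⟨fun j k d => f j k d + 1, fun j k d _ _ _ V _ G h1 h2 => IndMinor.isIndMinor _ V G le_rfl
    (hf j k d V G (starFree_of_isEmpty h1) (exists_indep_of_le_treeAlpha h2))⟩

end Pool.Agent.Results.MP_7f4e13_co.InducedGrid
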